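import Pool.Agent.R993.EC.Final

set_option autoImplicit false

namespace Pool.Agent.Results.MP_4af25b_mp.EntropicSeparation

open Pool.Agent.R993.EC

/-- There is a causal structure whose classical and quantum versions have entropy vectors with
different closures. -/
theorem result : ∃ C : CausalStructure, closure (GammaC C) ≠ closure (GammaQ C) :=
  main

end Pool.Agent.Results.MP_4af25b_mp.EntropicSeparation
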